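import Pool.Agent.Run7.h846.FacP

/-!
# The weak section conjecture for products of twisted polynomials over `p`-adic fields

Let `k` be a finite extension of `ℚ_p`, or any complete discretely valued field of characteristic
zero with finite residue field, let `A` be its valuation ring, and let `q` be a prime number which is
invertible in `A`.  We say that a polynomial `f ∈ k[x]` is good after a change of the coordinate if
`f(α x + β) = α ^ (deg f) g(x)` for some `α, β ∈ k`, `α ≠ 0`, and a monic polynomial `g ∈ A[x]` with a
separable reduction; so the roots of `f` form a cluster of equidistant points.  Let `f_i` be finitely many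
pairwise coprime polynomials of this kind, with different `α_i, β_i`, of degrees at least 3 and
divisible by `q`, let `m_i` be integers prime to `q`, let `n > 0` be divisible by `q`, and let `d ∈ k` be an
element whose valuation is not divisible by `q`.  Let `C` be the curve `d y ^ n = ∏ f_i(x) ^ m_i`.

**Theorem.**  The following are equivalent.
(1) Some `f_i` has a root in `k`.
(2) The curve has a rational point: `d y ^ n = ∏ f_i(x) ^ m_i` for some `x, y ∈ k`.
(3) The curve has a rational point or there is a section `G_k → π₁(U)` for some smooth curve (or
variety) `U` with a nonconstant map to `C`, for instance for `C` itself, an open subcurve, or the generic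
point of `C`.

So the weak section conjecture, if `π₁(C) → G_k` has a section then `C` has a rational point, to which
the section conjecture is reduced in the problem file, holds for these curves and for all curves over
them, when `f_i` have no roots in `k`: there are no sections at all.  For `n = q` the smooth projective
model of `C` has one point above each root of `∏ f_i`, it is unramified over infinity and the points at
infinity are not rational, so that (2) says that the smooth projective curve has a rational point.

The clusters of roots are arbitrary: they can be disjoint, nested or intertwined (two roots of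
different `f_i` can be as close as one likes).  The smooth projective model of `C`, of genus
`(q - 1)(∑ deg f_i - 2)/2` for `n = q`, has in general bad reduction over all finite extensions of `k`,
and the dual graph of its stable reduction depends on the tree of the clusters.  The starting results
`ProEllSections` and `EtaleCoverings` treat the case of one cluster, `f = ∏ f_i` good, when `C` acquires
good reduction over a ramified extension of `k` of degree `q`, and étale coverings of these curves;
`TwistsByRotations` treats other curves with potentially good reduction.  In general `C` does not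
dominate one of these curves; what one uses is an étale covering of `C` which is determined by the
section.

The fundamental group is described through valuations.  Let `U` be a smooth geometrically connected
curve over `k` with function field `E`, let `Ω` be an algebraic closure of `E`, and let `E_U` be the
maximal extension of `E` inside `Ω` which is unramified over the closed points of `U`, that is, over
their local rings, which are valuation rings of `E`.  Then `π₁(U) = Gal(E_U/E)`, and the map
`π₁(U) → G_k` is the restriction of automorphisms to the algebraic closure of `k` in `Ω`.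

Proof.  One can suppose `n = q`.  The functions `f_i(x)` have divisors divisible by `q` on `C`, hence
their `q`-th roots `Y_i` are in `E_U`, and `E_U` contains `k̄`.  For a section `σ` the cocycle
`τ ↦ σ(τ) Y_i / Y_i` has values in the roots of unity; by Hilbert's Theorem 90 there are `a_i ∈ k^*` such
that `a_i β_i ^ q = f_i(x)` with `β_i ∈ E_U` fixed by `σ`, and `d = ∏ a_i ^ m_i` up to `q`-th powers of `k`
(`Fac`).  The section `σ` is a section for the neighbourhood `E(β_i)`, which contains the function field of
the curve `a_i y ^ q = f_i(x)` (`Nbh`).  As the valuation of `d` is not divisible by `q`, the same is true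
for one of the `a_i`.  Then after the change of the coordinate the curve `a_i y ^ q = f_i(x)` is one of the curves
of the theorem of `ProEllSections`, and `f_i` has a root in `k` (`FacP`).
-/

set_option autoImplicit false

open Polynomial

namespace Pool.Agent.Results.MP_c385f6_ag.ProductsOfTwistedPolynomials

section definitions

variable (k F Ω : Type) [Field k] [Field F] [Field Ω] [Algebra k F] [Algebra F Ω] [Algebra k Ω]

/-- The inertia group of the valuation ring `W` of `Ω`, as a subgroup of `Gal(Ω/F)`: the
automorphisms of `Ω` over `F` that map `W` onto itself and act as the identity on its residue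
field. -/
noncomputable def inertia (W : ValuationSubring Ω) : Subgroup (Ω ≃ₐ[F] Ω) :=
  (W.inertiaSubgroup F).map (W.decompositionSubgroup F).subtype

/-- `F_U`, for a set `U` of valuation rings of `F`: the elements of `Ω` fixed by the inertia groups
of all valuation rings `W` of `Ω` with `W ∩ F ∈ U`.  If `Ω` is an algebraic closure of a field `F`
of characteristic zero, this is the maximal extension of `F` in `Ω` unramified over `U`. -/
noncomputable def unramified (U : Set (ValuationSubring F)) : IntermediateField F Ω :=
  ⨅ W : {W : ValuationSubring Ω // W.comap (algebraMap F Ω) ∈ U},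
    IntermediateField.fixedField (inertia F Ω W.1)

/-- The sections of `Gal(N/F) → G_k`: the continuous homomorphisms `s` from
`G_k = Gal(k̄/k)` to `Gal(N/F)`, where `k̄` is the algebraic closure of `k` in `Ω`, such that
`s(σ)` acts as `σ` on the elements of `k̄` in `N`. -/
structure GaloisSection (N : IntermediateField F Ω) where
  /-- the homomorphism `Gal(k̄/k) → Gal(N/F)` -/
  toHom : (algebraicClosure k Ω ≃ₐ[k] algebraicClosure k Ω) →* (N ≃ₐ[F] N)
  cont : Continuous toHom
  compat : ∀ σ (c : algebraicClosure k Ω) (z : N), (z : Ω) = c → (toHom σ z : Ω) = σ c

end definitions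

/-- There is a section of the fundamental group of a curve over the curve
`d y ^ n = ∏ f_i(x) ^ m_i`: there are a field `F` over `k` that contains a point `(x, y)` of the curve,
for instance the function field of the curve or of a curve which dominates it, an algebraic closure
`Ω` of `F` and a set `U` of valuation rings of `F` over `k`, for instance those of the points of a
smooth curve with function field `F`, such that `Gal(F_U/F) → G_k` has a section. -/
def HasSection {k : Type} [Field k] {I : Type} [Fintype I] (n : ℕ) (d : k) (f : I → k[X])
    (m : I → ℕ) : Prop :=
  ∃ (F Ω : Type) (_ : Field F) (_ : Field Ω) (_ : Algebra k F) (_ : Algebra F Ω)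
    (_ : Algebra k Ω) (_ : IsScalarTower k F Ω) (_ : IsAlgClosure F Ω) (x y : F)
    (U : Set (ValuationSubring F)),
    algebraMap k F d * y ^ n = ∏ i, aeval x (f i) ^ m i ∧
      (∀ O ∈ U, ∀ c : k, algebraMap k F c ∈ O) ∧ Nonempty (GaloisSection k F Ω (unramified F Ω U))

/-- `f` is good after a change of the coordinate: `f(α x + β) = α ^ (deg f) g(x)` for some `α ≠ 0` and
`β` in `k` and a monic polynomial `g` over `A` with a separable reduction modulo the maximal ideal. -/
def GoodAfterChange (A : Type) {k : Type} [CommRing A] [IsLocalRing A] [Field k] [Algebra A k]
    (f : k[X]) : Prop :=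
  ∃ (α β : k) (g : A[X]), α ≠ 0 ∧ g.Monic ∧ (g.map (IsLocalRing.residue A)).Separable ∧
    f.comp (C α * X + C β) = C (α ^ f.natDegree) * g.map (algebraMap A k)

/-- **The weak section conjecture for products of twisted polynomials.**  Let `A` be a complete discrete
valuation ring with finite residue field whose field of fractions `k` has characteristic zero, `q` a
prime number invertible in `A`, `n > 0` divisible by `q`, `f_i ∈ k[x]` finitely many pairwise coprime
polynomials which are good after a change of the coordinate, of degrees at least `3` and divisible by
`q`, let `m_i` be prime to `q` and let the valuation of `d ∈ k`, `d ≠ 0`, not be divisible by `q`.  Then the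
following are equivalent: some `f_i` has a root in `k`; the curve `d y ^ n = ∏ f_i(x) ^ m_i` has a
rational point; the curve has a rational point or there is a section for a curve over it. -/
theorem result (A k : Type) [CommRing A] [IsDomain A] [IsDiscreteValuationRing A]
    [IsAdicComplete (IsLocalRing.maximalIdeal A) A] [Finite (IsLocalRing.ResidueField A)] [Field k]
    [CharZero k] [Algebra A k] [IsFractionRing A k] (q : ℕ) (hq : q.Prime) (hqA : IsUnit (q : A))
    (n : ℕ) (hn : 0 < n) (hqn : q ∣ n) (I : Type) [Fintype I] (f : I → k[X])
    (hcop : ∀ i j, i ≠ j → IsCoprime (f i) (f j)) (hgood : ∀ i, GoodAfterChange A (f i))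
    (hdeg : ∀ i, q ∣ (f i).natDegree) (h3 : ∀ i, 3 ≤ (f i).natDegree) (m : I → ℕ)
    (hm : ∀ i, ¬ q ∣ m i) (d : k) (hd : d ≠ 0)
    (hval : ∀ (ϖ : A) (u : Aˣ) (j : ℤ), Irreducible ϖ →
      d = algebraMap A k u * algebraMap A k ϖ ^ j → ¬ (q : ℤ) ∣ j) :
    List.TFAE [
      ∃ i, ∃ e : k, (f i).eval e = 0,
      ∃ x y : k, d * y ^ n = ∏ i, (f i).eval x ^ m i,
      (∃ x y : k, d * y ^ n = ∏ i, (f i).eval x ^ m i) ∨ HasSection n d f m] := by
  classical
  have : Fact q.Prime := ⟨hq⟩
  obtain ⟨ϖ, hϖ⟩ := IsDiscreteValuationRing.exists_irreducible A
  choose α β g hα hg hs he using hgood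
  have hG : ∀ i, Run7.h846.GoodAff A (f i) (g i) (α i) (β i) :=
    fun i => ⟨hα i, hg i, hs i, he i⟩
  have hm' : ∀ i, (m i).Coprime q := fun i => ((hq.coprime_iff_not_dvd).2 (hm i)).symm
  have hdPV : ¬ Run7.h846.PV q ϖ d := by
    rintro ⟨u, j, hj⟩
    exact hval ϖ u _ hϖ hj ⟨j, rfl⟩
  obtain ⟨n', rfl⟩ := hqn
  tfae_have 1 → 2 := by
    rintro ⟨i, e, he⟩
    refine ⟨e, 0, ?_⟩
    rw [zero_pow hn.ne', mul_zero]
    have hmi : m i ≠ 0 := fun h => hm i (h ▸ dvd_zero _)
    exact (Finset.prod_eq_zero (Finset.mem_univ i) (by rw [he, zero_pow hmi])).symm
  tfae_have 2 → 3 := Or.inl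
  tfae_have 3 → 1 := by
    rintro (⟨x, y, hxy⟩ | hsec)
    · by_contra hcon
      push Not at hcon
      haveI : HenselianLocalRing A :=
        { is_henselian := fun f hf a₀ h1 h2 => by
            have h3 := HenselianRing.is_henselian (R := A) (I := IsLocalRing.maximalIdeal A) f hf a₀ h1
              (h2.map (Ideal.Quotient.mk (IsLocalRing.maximalIdeal A)))
            exact h3 }
      refine Run7.h846.point_root hϖ f g α β hG hdeg m d hdPV hn (dvd_mul_right _ _) x y hxy
        fun i b hb => ?_
      obtain ⟨θ, hθ⟩ := Pool.Agent.W623.SecC.hensel_root (g i)
        (by rw [(hg i).leadingCoeff]; exact isUnit_one) (hs i) b hb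
      refine hcon i _ ((hG i).root (algebraMap A k θ) ?_)
      rw [eval_map, eval₂_at_apply, hθ, map_zero]
    · obtain ⟨F, Ω, _, _, _, _, _, _, hΩ, x, y, U, hxy, hU, ⟨G⟩⟩ := hsec
      have hcl : IsAlgClosed Ω := IsAlgClosure.isAlgClosed F
      have halg : Algebra.IsAlgebraic F Ω := IsAlgClosure.isAlgebraic
      refine Run7.h846.fac_padic hqA hϖ f g α β hG hcop hdeg h3 m hm' d hd hdPV U hU
        ⟨G.toHom, G.cont, G.compat⟩ x (y ^ n') ?_
      rw [← pow_mul, mul_comm n' q, hxy]
  tfae_finish

end Pool.Agent.Results.MP_c385f6_ag.ProductsOfTwistedPolynomials
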